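import Pool.Agent.N912.LB.Stm
import Pool.Agent.TH890.DV.C1
import Pool.Agent.N490.LC.Null

/-!
# Project LB, part LB4: number of integers `n` with `H₁((d, n + ω)) + H₂((e, n + ω)) = g`
(adapted from Pool/Agent/N490/LC/Finmg.lean)
-/

set_option autoImplicit false

namespace Pool.Agent.N507.LB

open Finset Filter
open Pool.Agent.W78.GA (Qd)
open Pool.Agent.N912.LC (TP TW S_LC9)
open Pool.Agent.N912.LB
open Pool.Agent.N490.LC (tt all_of)
open Pool.Agent.TH890.DV (LogNull cnt_core Qp_inj)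
open Pool.Agent.W78.GT (Qp)

open scoped Classical in
/-- the triples in the residue class of `u` -/
noncomputable def U (t c : ℤ) (q u X : ℕ) : Finset (ℕ × ℕ × ℕ) :=
  (TP t c X).filter (fun y => y.2.2 ≡ u [MOD q])

theorem mem_U {t c : ℤ} {q u X : ℕ} {y : ℕ × ℕ × ℕ} : y ∈ U t c q u X ↔
    ((1 ≤ y.1 ∧ y.1 ≤ X) ∧ (1 ≤ y.2.1 ∧ y.2.1 ≤ X) ∧ y.2.2 ≤ X ∧
      (y.1 : ℤ) * y.2.1 = (y.2.2 : ℤ) ^ 2 + t * y.2.2 + c ∧ 0 < 2 * (y.2.2 : ℤ) + t) ∧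
      y.2.2 ≡ u [MOD q] := by
  unfold U TP
  rw [mem_filter, mem_filter, mem_product, mem_product, mem_Icc, mem_Icc, mem_range,
    Nat.floor_natCast, Nat.lt_succ_iff]
  tauto

/-- the windows `(0, 1]` -/
theorem TWq_eq (t c : ℤ) (q u r r' X : ℕ) : open scoped Classical in
    TWq t c q u r r' 0 1 0 1 (X : ℝ) =
      (U t c q u X).filter (fun y => y.1 ≡ r [MOD q] ∧ y.2.1 ≡ r' [MOD q]) := by
  classical
  ext y
  unfold TWq TW U
  simp only [mem_filter]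
  constructor
  · rintro ⟨⟨h1, _⟩, h2, h3, h4⟩
    exact ⟨⟨h1, h2⟩, h3, h4⟩
  · rintro ⟨⟨h1, h2⟩, h3, h4⟩
    refine ⟨⟨h1, ?_⟩, h2, h3, h4⟩
    unfold TP at h1
    rw [mem_filter, mem_product, mem_product, mem_Icc, mem_Icc, Nat.floor_natCast] at h1
    obtain ⟨⟨⟨a1, a2⟩, ⟨a3, a4⟩, _⟩, _⟩ := h1
    rw [zero_mul, one_mul]
    exact ⟨by exact_mod_cast a1, by exact_mod_cast a2, by exact_mod_cast a3, by exact_mod_cast a4⟩

section

variable {G : Type} [AddCommGroup G]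

open scoped Classical in
theorem fib (S : Finset (ℕ × ℕ × ℕ)) {q : ℕ} (hq : 1 ≤ q) :
    (S.card : ℝ) = ∑ ρ ∈ range q ×ˢ range q,
      ((S.filter (fun y => y.1 ≡ ρ.1 [MOD q] ∧ y.2.1 ≡ ρ.2 [MOD q])).card : ℝ) := by
  have hm : ∀ y ∈ S, (y.1 % q, y.2.1 % q) ∈ range q ×ˢ range q := fun y _ =>
    mem_product.2 ⟨mem_range.2 (Nat.mod_lt _ (by omega)), mem_range.2 (Nat.mod_lt _ (by omega))⟩
  rw [card_eq_sum_card_fiberwise hm]
  push_cast
  refine sum_congr rfl fun ρ hρ => ?_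
  obtain ⟨h1, h2⟩ := mem_product.1 hρ
  congr 2
  ext y
  rw [mem_filter, mem_filter]
  refine and_congr_right fun _ => ?_
  unfold Nat.ModEq
  rw [Nat.mod_eq_of_lt (mem_range.1 h1), Nat.mod_eq_of_lt (mem_range.1 h2), Prod.ext_iff]

open scoped Classical in
/-- the deviation -/
noncomputable def Dev (t c : ℤ) (q u : ℕ) (H₁ H₂ : Ideal (Qd t c) → G) (g : G) (r r' X : ℕ) : ℝ :=
  |(((TWq t c q u r r' 0 1 0 1 (X : ℝ)).filter
      (fun y => H₁ (i1 t c y.1 y.2.2) + H₂ (i1 t c y.2.1 y.2.2) = g)).card : ℝ) -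
    ((TWq t c q u r r' 0 1 0 1 (X : ℝ)).card : ℝ) / Nat.card G|

open scoped Classical in
/-- the triples with the sum equal to `g` at good scales -/
theorem V_ge {t c : ℤ} {q u : ℕ} (hq : 1 ≤ q) (H₁ H₂ : Ideal (Qd t c) → G) (g : G) {X : ℕ} {η : ℝ}
    (h : ∀ r < q, ∀ r' < q, Dev t c q u H₁ H₂ g r r' X ≤ η) :
    ((U t c q u X).card : ℝ) / Nat.card G - (q : ℝ) ^ 2 * η ≤
      (((U t c q u X).filter
        (fun y => H₁ (i1 t c y.1 y.2.2) + H₂ (i1 t c y.2.1 y.2.2) = g)).card : ℝ) := by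
  rw [fib (U t c q u X) hq, fib ((U t c q u X).filter
    (fun y => H₁ (i1 t c y.1 y.2.2) + H₂ (i1 t c y.2.1 y.2.2) = g)) hq]
  have h1 : (q : ℝ) ^ 2 * η = ∑ ρ ∈ range q ×ˢ range q, η := by
    rw [sum_const, card_product, card_range, nsmul_eq_mul]
    push_cast
    ring
  rw [h1, sum_div, ← sum_sub_distrib]
  refine sum_le_sum fun ρ hρ => ?_
  obtain ⟨h2, h3⟩ := mem_product.1 hρ
  have h4 := h ρ.1 (mem_range.1 h2) ρ.2 (mem_range.1 h3)
  unfold Dev at h4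
  rw [TWq_eq, filter_filter] at h4
  rw [filter_filter]
  have e2 : (U t c q u X).filter (fun y => (y.1 ≡ ρ.1 [MOD q] ∧ y.2.1 ≡ ρ.2 [MOD q]) ∧
        H₁ (i1 t c y.1 y.2.2) + H₂ (i1 t c y.2.1 y.2.2) = g) =
      (U t c q u X).filter (fun y => H₁ (i1 t c y.1 y.2.2) + H₂ (i1 t c y.2.1 y.2.2) = g ∧
        (y.1 ≡ ρ.1 [MOD q] ∧ y.2.1 ≡ ρ.2 [MOD q])) :=
    filter_congr fun y _ => by tauto
  rw [e2] at h4
  have h5 := (abs_le.1 h4).1
  linarith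

theorem cGI_mono (t c : ℤ) (q u : ℕ) (H₁ H₂ : Ideal (Qd t c) → G) (g : G) :
    Monotone (cGI t c q u H₁ H₂ g) := by
  intro X Y h
  unfold cGI
  refine Set.ncard_le_ncard ?_ ((Set.finite_Iic Y).subset fun n hn => hn.1)
  rintro n ⟨h1, h2, d, e, h3, h4, h5, h6⟩
  exact ⟨h1.trans h, h2, d, e, h3.trans h, h4.trans h, h5, h6⟩

/-- the lower bound at one scale -/
theorem one_scale {t c : ℤ} (ht : t = 0 ∨ t = 1) (htc : t ^ 2 < 4 * c)
    (H₁ H₂ : Ideal (Qd t c) → G) (g : G) (q u : ℕ) {b : ℝ} (hb : 0 < b)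
    {ε : ℝ} (hε : 0 < ε) : ∃ N₀ : ℕ, ∀ X : ℕ, N₀ ≤ X → open scoped Classical in
      b * X ≤ (((U t c q u X).filter
        (fun y => H₁ (i1 t c y.1 y.2.2) + H₂ (i1 t c y.2.1 y.2.2) = g)).card : ℝ) →
      (X : ℝ) / Real.log X ^ (Real.log 2 + ε) ≤ cGI t c q u H₁ H₂ g X := by
  classical
  have ht0 : 0 ≤ t := by omega
  have hns : ¬ IsSquare (t ^ 2 - 4 * c) := by
    rintro ⟨x, hx⟩
    nlinarith [mul_self_nonneg x]
  obtain ⟨F, hF⟩ : ∃ F : ℕ → ℕ, F = fun m : ℕ => (Qp t c (m : ℤ)).toNat := ⟨_, rfl⟩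
  have hFP : ∀ m : ℕ, (F m : ℤ) = Qp t c m := by
    intro m
    rw [hF]
    refine Int.toNat_of_nonneg ?_
    unfold Qp
    nlinarith [sq_nonneg (2 * (m : ℤ) + t)]
  have hFQ : ∀ m : ℕ, ((1 : ℕ) : ℤ) * F m = Qp t c (((1 : ℕ) : ℤ) * m + ((0 : ℕ) : ℤ)) := by
    intro m
    push_cast
    rw [one_mul, one_mul, add_zero]
    exact hFP m
  have hFinj : Function.Injective F := by
    intro m n h
    have h1 : Qp t c (m : ℤ) = Qp t c (n : ℤ) := by rw [← hFP, ← hFP, h]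
    have h2 := Qp_inj (t := t) (c := c) (by positivity) (by positivity) h1
    exact_mod_cast h2
  obtain ⟨N₁, hcore⟩ := cnt_core hns (F := F) le_rfl ht0 hFQ b ε hb hε
  refine ⟨N₁, fun X hX hV => ?_⟩
  obtain ⟨V, hVd⟩ : ∃ V : Finset (ℕ × ℕ × ℕ), V = (U t c q u X).filter
      (fun y => H₁ (i1 t c y.1 y.2.2) + H₂ (i1 t c y.2.1 y.2.2) = g) := ⟨_, rfl⟩
  rw [← hVd] at hV
  have hVm : ∀ y ∈ V, y.1 * y.2.1 = F y.2.2 ∧ 1 ≤ y.1 ∧ y.1 ≤ X ∧ 1 ≤ y.2.1 ∧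
      y.2.1 ≤ X ∧ y.2.2 ≤ X ∧ y.2.2 ≡ u [MOD q] ∧
      H₁ (i1 t c y.1 y.2.2) + H₂ (i1 t c y.2.1 y.2.2) = g := by
    intro y hy
    rw [hVd, mem_filter, mem_U] at hy
    obtain ⟨⟨⟨⟨h1, h2⟩, ⟨h3, h4⟩, h5, h6, -⟩, h7⟩, h8⟩ := hy
    refine ⟨?_, h1, h2, h3, h4, h5, h7, h8⟩
    have h9 : (((y.1 * y.2.1 : ℕ)) : ℤ) = F y.2.2 := by
      rw [hFP]
      push_cast
      exact h6
    exact_mod_cast h9
  have hinj : Set.InjOn (fun y : ℕ × ℕ × ℕ => (y.1, y.2.1)) (V : Set (ℕ × ℕ × ℕ)) := by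
    intro y hy y' hy' he
    rw [mem_coe] at hy hy'
    have h3 := (hVm y hy).1
    have h3' := (hVm y' hy').1
    simp only [Prod.mk.injEq] at he
    obtain ⟨e1, e2⟩ := he
    rw [e1, e2, h3'] at h3
    exact Prod.ext e1 (Prod.ext e2 (hFinj h3).symm)
  have h1 := hcore X hX (V.image (fun y => (y.1, y.2.1))) (by
    intro p hp
    rw [mem_image] at hp
    obtain ⟨y, hy, rfl⟩ := hp
    obtain ⟨h3, h4, h5, h6, h7, -⟩ := hVm y hy
    exact ⟨h4, h5, h6, h7, _, h3⟩) (by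
    rw [card_image_of_injOn hinj]
    exact hV) (V.image (fun y => y.2.2)) (by
    rintro m ⟨p, hp, hm⟩
    rw [mem_image] at hp
    obtain ⟨y, hy, rfl⟩ := hp
    rw [mem_image]
    refine ⟨y, hy, hFinj ?_⟩
    rw [← (hVm y hy).1, ← hm])
  refine h1.trans ?_
  have h2 : (V.image (fun y => y.2.2)).card ≤ cGI t c q u H₁ H₂ g X := by
    unfold cGI
    rw [← Set.ncard_coe_finset]
    refine Set.ncard_le_ncard ?_ ((Set.finite_Iic X).subset fun n hn => hn.1)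
    intro n hn
    rw [mem_coe, mem_image] at hn
    obtain ⟨y, hy, rfl⟩ := hn
    obtain ⟨h3, h4, h5, h6, h7, h8, h9, h10⟩ := hVm y hy
    refine ⟨h8, h9, y.1, y.2.1, h5, h7, ?_, h10⟩
    have h11 : (((y.1 * y.2.1 : ℕ)) : ℤ) = F y.2.2 := by exact_mod_cast h3
    rw [hFP] at h11
    push_cast at h11
    exact h11
  exact_mod_cast h2

end

theorem finmgb (h : S_FINGB) (h9 : S_LC9) : S_FINMGB := by
  classical
  intro t c ht htc hic G _ _ H₁ H₂ hyp q u g hq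
  have hmain : ∀ ε : ℝ, 0 < ε → LogNull (fun X : ℕ =>
      (cGI t c q u H₁ H₂ g X : ℝ) < (X : ℝ) / Real.log X ^ (Real.log 2 + ε)) := by
    intro ε hε
    obtain ⟨c₁, hc₁, X₀, hlow⟩ := h9 t c ht htc q u hq
    have hG0 : (0 : ℝ) < Nat.card G := by exact_mod_cast Nat.card_pos
    have hq0 : (0 : ℝ) < q := by exact_mod_cast hq
    obtain ⟨b, hb⟩ : ∃ b : ℝ, b = c₁ / (2 * Nat.card G) := ⟨_, rfl⟩
    have hb0 : 0 < b := by rw [hb]; positivity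
    obtain ⟨N₁, hN₁⟩ := one_scale ht htc H₁ H₂ g q u hb0 hε
    have hdev : ∀ r, r < q → LogNull (fun X => ∃ r', r' < q ∧ b / (q : ℝ) ^ 2 * X <
        Dev t c q u H₁ H₂ g r r' X) := by
      intro r _
      refine LogNull.exists_lt fun r' _ => ?_
      refine tt (fun X => abs_nonneg _) (fun ε' hε' => ?_) (b / (q : ℝ) ^ 2) (by positivity)
      exact h t c ht htc hic G H₁ H₂ hyp q u r r' g hq 0 1 0 1 le_rfl (by norm_num) le_rfl
        le_rfl (by norm_num) le_rfl ε' hε'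
    refine LogNull.of_ev (max X₀ N₁) (fun X hX hlt => ?_) (LogNull.exists_lt hdev)
    by_contra hcon
    push Not at hcon
    have h1 : c₁ * X ≤ ((U t c q u X).card : ℝ) := hlow X ((le_max_left _ _).trans hX)
    have h2 := V_ge hq H₁ H₂ g (X := X) (η := b / (q : ℝ) ^ 2 * X) hcon
    have h3 : (q : ℝ) ^ 2 * (b / (q : ℝ) ^ 2 * X) = b * X := by field_simp
    have h4 : 2 * (b * X) ≤ ((U t c q u X).card : ℝ) / Nat.card G := by
      rw [le_div_iff₀ hG0, hb]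
      refine le_trans (le_of_eq ?_) h1
      field_simp
    rw [h3] at h2
    have h5 := hN₁ X ((le_max_right _ _).trans hX) (by linarith)
    linarith
  refine ⟨hmain, fun δ hδ => ?_⟩
  have hl2 : 0 < Real.log 2 + 1 := by
    have := Real.log_pos (show (1 : ℝ) < 2 by norm_num)
    linarith
  exact all_of (cGI_mono t c q u H₁ H₂ g) hl2 (hmain 1 one_pos) δ hδ

end Pool.Agent.N507.LB
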